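import Pool.Agent.Q273.MV.Stm3

/-! Project MV (helper273), job CANTOR: a Cantor set of positive Hausdorff measure in a
finite-dimensional space. -/

set_option autoImplicit false

open MeasureTheory Metric Filter Topology Set Module Function
open scoped NNReal ENNReal

namespace Pool.Agent.Q198.MV

/-- separated points in a ball -/
lemma packing {E : Type} [NormedAddCommGroup E] [NormedSpace ℝ E] [FiniteDimensional ℝ E]
    (s : Finset E) (x0 : E) (D ρ : ℝ) (hρ : 0 < ρ) (hD : 0 ≤ D) (h1 : ∀ c ∈ s, dist c x0 ≤ D)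
    (h2 : ∀ c ∈ s, ∀ d ∈ s, c ≠ d → ρ ≤ dist c d) :
    (s.card : ℝ) ≤ (1 + 2 * D / ρ) ^ finrank ℝ E := by
  borelize E
  let μ : Measure E := Measure.addHaar
  set δ : ℝ := ρ / 2 with hδ
  set R : ℝ := D + ρ / 2 with hR
  have hδ0 : 0 < δ := by positivity
  have hR0 : 0 < R := by positivity
  set A := ⋃ c ∈ s, ball (c : E) δ with hA
  have Dj : Set.Pairwise (s : Set E) (Disjoint on fun c => ball (c : E) δ) := by
    rintro c hc d hd hcd
    apply ball_disjoint_ball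
    have := h2 c hc d hd hcd
    rw [hδ]; linarith
  have A_subset : A ⊆ ball x0 R := by
    refine iUnion₂_subset fun x hx => ?_
    apply ball_subset_ball'
    have := h1 x hx
    rw [hδ, hR]; linarith
  have I : (s.card : ℝ≥0∞) * ENNReal.ofReal (δ ^ finrank ℝ E) * μ (ball 0 1) ≤
      ENNReal.ofReal (R ^ finrank ℝ E) * μ (ball 0 1) :=
    calc
      (s.card : ℝ≥0∞) * ENNReal.ofReal (δ ^ finrank ℝ E) * μ (ball 0 1) = μ A := by
        rw [hA, measure_biUnion_finset Dj fun c _ => measurableSet_ball]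
        simp only [μ.addHaar_ball_of_pos _ hδ0]
        simp only [Finset.sum_const, nsmul_eq_mul, mul_assoc]
      _ ≤ μ (ball x0 R) := measure_mono A_subset
      _ = ENNReal.ofReal (R ^ finrank ℝ E) * μ (ball 0 1) := by
        simp only [μ.addHaar_ball_of_pos _ hR0]
  have J : (s.card : ℝ≥0∞) * ENNReal.ofReal (δ ^ finrank ℝ E) ≤ ENNReal.ofReal (R ^ finrank ℝ E) :=
    (ENNReal.mul_le_mul_iff_left (measure_ball_pos _ _ zero_lt_one).ne' measure_ball_lt_top.ne).1 I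
  have K := ENNReal.toReal_le_of_le_ofReal (pow_nonneg hR0.le _) J
  rw [ENNReal.toReal_mul, ENNReal.toReal_natCast, ENNReal.toReal_ofReal (by positivity)] at K
  have e : 1 + 2 * D / ρ = R / δ := by rw [hR, hδ]; field_simp; ring
  rw [e, div_pow, le_div_iff₀ (by positivity)]
  exact K

section tree

variable {E : Type} [NormedAddCommGroup E]

/-- the data of the construction -/
structure Tr (c0 : E) (R0 : ℝ) (A : ℕ → Set E) (r ρ : ℕ → ℝ) (T : ℕ → ℕ)
    (ch : (n : ℕ) → E → Fin (T n) → E) : Prop where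
  r0 : r 0 = R0
  rpos : ∀ n, 0 < r n
  rρ : ∀ n, 4 * r (n + 1) ≤ ρ n
  ρr : ∀ n, ρ n ≤ r n
  Tpos : ∀ n, 0 < T n
  sub : ∀ n c, closedBall c (r n) ⊆ closedBall c0 R0 →
    ∀ b, closedBall (ch n c b) (r (n + 1)) ⊆ A n ∩ closedBall c (r n)
  sep : ∀ n c, closedBall c (r n) ⊆ closedBall c0 R0 →
    ∀ b b', b ≠ b' → ρ n ≤ dist (ch n c b) (ch n c b')

/-- the centres -/
def ctr (c0 : E) {T : ℕ → ℕ} (ch : (n : ℕ) → E → Fin (T n) → E) (ω : (k : ℕ) → Fin (T k)) :
    ℕ → E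
  | 0 => c0
  | n + 1 => ch n (ctr c0 ch ω n) (ω n)

variable {c0 : E} {R0 : ℝ} {A : ℕ → Set E} {r ρ : ℕ → ℝ} {T : ℕ → ℕ}
  {ch : (n : ℕ) → E → Fin (T n) → E}

lemma Tr.inside (H : Tr c0 R0 A r ρ T ch) (ω : (k : ℕ) → Fin (T k)) (n : ℕ) :
    closedBall (ctr c0 ch ω n) (r n) ⊆ closedBall c0 R0 := by
  induction n with
  | zero => rw [H.r0]; exact subset_rfl
  | succ n ih =>
    have := H.sub n _ ih (ω n)
    exact (this.trans inter_subset_right).trans ih

lemma Tr.next (H : Tr c0 R0 A r ρ T ch) (ω : (k : ℕ) → Fin (T k)) (n : ℕ) :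
    closedBall (ctr c0 ch ω (n + 1)) (r (n + 1)) ⊆ A n ∩ closedBall (ctr c0 ch ω n) (r n) :=
  H.sub n _ (H.inside ω n) (ω n)

lemma Tr.quarter (H : Tr c0 R0 A r ρ T ch) (n : ℕ) : 4 * r (n + 1) ≤ r n := (H.rρ n).trans (H.ρr n)

lemma Tr.dec (H : Tr c0 R0 A r ρ T ch) (n : ℕ) : r (n + 1) ≤ r n := by
  have := H.quarter n
  have := H.rpos (n + 1)
  linarith

lemma Tr.geo (H : Tr c0 R0 A r ρ T ch) (n : ℕ) : r n ≤ R0 * (1 / 4) ^ n := by
  induction n with
  | zero => rw [H.r0]; simp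
  | succ n ih =>
    have := H.quarter n
    rw [pow_succ]
    linarith

lemma Tr.tend (H : Tr c0 R0 A r ρ T ch) : Tendsto r atTop (𝓝 0) := by
  have h1 : Tendsto (fun n : ℕ => R0 * (1 / 4 : ℝ) ^ n) atTop (𝓝 (R0 * 0)) :=
    (tendsto_pow_atTop_nhds_zero_of_lt_one (by norm_num) (by norm_num)).const_mul _
  rw [mul_zero] at h1
  exact squeeze_zero (fun n => (H.rpos n).le) H.geo h1

lemma Tr.nest (H : Tr c0 R0 A r ρ T ch) (ω : (k : ℕ) → Fin (T k)) {m n : ℕ} (h : m ≤ n) :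
    closedBall (ctr c0 ch ω n) (r n) ⊆ closedBall (ctr c0 ch ω m) (r m) := by
  induction n, h using Nat.le_induction with
  | base => exact subset_rfl
  | succ n _ ih => exact ((H.next ω n).trans inter_subset_right).trans ih

lemma Tr.dist_le (H : Tr c0 R0 A r ρ T ch) (ω : (k : ℕ) → Fin (T k)) {m n : ℕ} (h : m ≤ n) :
    dist (ctr c0 ch ω n) (ctr c0 ch ω m) ≤ r m :=
  H.nest ω h (mem_closedBall_self (H.rpos n).le)

lemma Tr.lim [CompleteSpace E] (H : Tr c0 R0 A r ρ T ch) (ω : (k : ℕ) → Fin (T k)) :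
    ∃ x, Tendsto (ctr c0 ch ω) atTop (𝓝 x) := by
  apply cauchySeq_tendsto_of_complete
  rw [Metric.cauchySeq_iff']
  intro ε hε
  obtain ⟨N, hN⟩ := ((tendsto_order.1 H.tend).2 ε hε).exists
  exact ⟨N, fun n hn => lt_of_le_of_lt (H.dist_le ω hn) hN⟩

omit [NormedAddCommGroup E] in
lemma ctr_congr {ω ω' : (k : ℕ) → Fin (T k)} {n : ℕ} (h : ∀ k < n, ω k = ω' k) :
    ctr c0 ch ω n = ctr c0 ch ω' n := by
  induction n with
  | zero => rfl
  | succ n ih =>
    have h1 := ih fun k hk => h k (by omega)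
    simp only [ctr]
    rw [h1, h n (by omega)]

lemma Tr.sepw (H : Tr c0 R0 A r ρ T ch) {ω ω' : (k : ℕ) → Fin (T k)} {n : ℕ}
    (h : ∃ k < n, ω k ≠ ω' k) : 4 * r n ≤ dist (ctr c0 ch ω n) (ctr c0 ch ω' n) := by
  induction n with
  | zero => obtain ⟨k, hk, -⟩ := h; omega
  | succ n ih =>
    by_cases h1 : ∃ k < n, ω k ≠ ω' k
    · have h2 := ih h1
      have h3 := H.dist_le ω (Nat.le_succ n)
      have h4 := H.dist_le ω' (Nat.le_succ n)
      have h5 := dist_triangle4 (ctr c0 ch ω n) (ctr c0 ch ω (n + 1)) (ctr c0 ch ω' (n + 1))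
        (ctr c0 ch ω' n)
      rw [dist_comm] at h3
      have h6 := H.quarter n
      have h7 := H.rpos n
      simp only [Nat.succ_eq_add_one] at h3 h4
      linarith
    · have h2 : ∀ k < n, ω k = ω' k := by
        intro k hk
        by_contra hc
        exact h1 ⟨k, hk, hc⟩
      obtain ⟨k, hk, hne⟩ := h
      have hkn : k = n := by
        by_contra hc
        exact hne (h2 k (by omega))
      subst hkn
      have h3 := H.sep k _ (H.inside ω k) _ _ hne
      have h4 : ctr c0 ch ω' (k + 1) = ch k (ctr c0 ch ω k) (ω' k) := by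
        simp only [ctr]
        rw [ctr_congr h2]
      rw [h4]
      exact (H.rρ k).trans h3

omit [NormedAddCommGroup E] in
lemma ctr_lc (n : ℕ) : IsLocallyConstant fun ω : (k : ℕ) → Fin (T k) => ctr c0 ch ω n := by
  induction n with
  | zero => exact IsLocallyConstant.const c0
  | succ n ih =>
    have h1 : IsLocallyConstant fun ω : (k : ℕ) → Fin (T k) => ω n :=
      (IsLocallyConstant.iff_continuous _).mpr (continuous_apply n)
    exact ih.comp₂ h1 (fun c b => ch n c b)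

/-- the uniform measure -/
noncomputable def un (T : ℕ → ℕ) (k : ℕ) : Measure (Fin (T k)) :=
  ((T k : ℝ≥0∞))⁻¹ • Measure.count

lemma un_prob (hT : ∀ n, 0 < T n) (k : ℕ) : IsProbabilityMeasure (un T k) := by
  constructor
  unfold un
  rw [Measure.smul_apply, Measure.count_univ, smul_eq_mul]
  simp only [ENat.card_eq_coe_fintype_card, Fintype.card_fin]
  have h := hT k
  exact ENNReal.inv_mul_cancel (by exact_mod_cast h.ne') (by simp)

lemma un_apply (k : ℕ) (B : Set (Fin (T k))) :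
    un T k B = (T k : ℝ≥0∞)⁻¹ * (B.toFinite.toFinset.card : ℝ≥0∞) := by
  unfold un
  rw [Measure.smul_apply, smul_eq_mul, Measure.count_apply_finite B B.toFinite]

lemma un_single (k : ℕ) (b : Fin (T k)) : un T k {b} = (T k : ℝ≥0∞)⁻¹ := by
  unfold un
  rw [Measure.smul_apply, smul_eq_mul, Measure.count_singleton, mul_one]

end tree


section mass

variable {E : Type} [NormedAddCommGroup E] [NormedSpace ℝ E] [FiniteDimensional ℝ E]
  [MeasurableSpace E] [BorelSpace E]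
  {c0 : E} {R0 : ℝ} {A : ℕ → Set E} {r ρ : ℕ → ℝ} {T : ℕ → ℕ}
  {ch : (n : ℕ) → E → Fin (T n) → E}

/-- the point of a branch -/
noncomputable def Phi (c0 : E) {T : ℕ → ℕ} (ch : (n : ℕ) → E → Fin (T n) → E)
    (ω : (k : ℕ) → Fin (T k)) : E := limUnder atTop (ctr c0 ch ω)

omit [MeasurableSpace E] [BorelSpace E] in
lemma Tr.tendPhi (H : Tr c0 R0 A r ρ T ch) (ω : (k : ℕ) → Fin (T k)) :
    Tendsto (ctr c0 ch ω) atTop (𝓝 (Phi c0 ch ω)) := by
  haveI : CompleteSpace E := FiniteDimensional.complete ℝ E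
  exact tendsto_nhds_limUnder (H.lim ω)

omit [MeasurableSpace E] [BorelSpace E] in
lemma Tr.memPhi (H : Tr c0 R0 A r ρ T ch) (ω : (k : ℕ) → Fin (T k)) (n : ℕ) :
    Phi c0 ch ω ∈ closedBall (ctr c0 ch ω n) (r n) :=
  isClosed_closedBall.mem_of_tendsto (H.tendPhi ω) (eventually_atTop.2
    ⟨n, fun _ hm => H.nest ω hm (mem_closedBall_self (H.rpos _).le)⟩)

lemma Tr.measPhi (H : Tr c0 R0 A r ρ T ch) : Measurable (Phi c0 ch) :=
  measurable_of_tendsto_metrizable (f := fun n ω => ctr c0 ch ω n)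
    (fun n => (ctr_lc n).continuous.measurable) (tendsto_pi_nhds.2 fun ω => H.tendPhi ω)

omit [MeasurableSpace E] [BorelSpace E] in
/-- the number of children meeting a small set -/
lemma Tr.kids (H : Tr c0 R0 A r ρ T ch) (n : ℕ) (c : E)
    (hc : closedBall c (r n) ⊆ closedBall c0 R0) (U : Set E) (u : ℝ) (x0 : E) (hx0 : x0 ∈ U)
    (hU : ∀ x ∈ U, ∀ y ∈ U, dist x y ≤ u) (hu : r (n + 1) ≤ u) :
    ((({b : Fin (T n) | (closedBall (ch n c b) (r (n + 1)) ∩ U).Nonempty} : Set (Fin (T n))).toFinite.toFinset.card : ℕ) : ℝ) ≤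
      (1 + 4 * u / ρ n) ^ finrank ℝ E := by
  classical
  set B := ({b : Fin (T n) | (closedBall (ch n c b) (r (n + 1)) ∩ U).Nonempty} :
    Set (Fin (T n))).toFinite.toFinset with hB
  have hρ : 0 < ρ n := by
    have := H.rρ n
    have := H.rpos (n + 1)
    linarith
  have hu0 : 0 < u := lt_of_lt_of_le (H.rpos _) hu
  have hinj : Function.Injective (ch n c) := by
    intro b b' hbb
    by_contra hne
    have := H.sep n c hc b b' hne
    rw [hbb, dist_self] at this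
    linarith
  have h1 : (B.image (ch n c)).card = B.card := Finset.card_image_of_injective _ hinj
  rw [← h1]
  have h2 := packing (B.image (ch n c)) x0 (2 * u) (ρ n) hρ (by positivity) ?_ ?_
  · have e : 2 * (2 * u) / ρ n = 4 * u / ρ n := by ring
    rw [e] at h2
    exact h2
  · intro p hp
    obtain ⟨b, hb, rfl⟩ := Finset.mem_image.1 hp
    rw [hB, Set.Finite.mem_toFinset] at hb
    obtain ⟨y, hy1, hy2⟩ := hb
    rw [mem_closedBall] at hy1
    have := hU y hy2 x0 hx0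
    have := dist_triangle_left (ch n c b) x0 y
    linarith
  · intro p hp p' hp' hne
    obtain ⟨b, hb, rfl⟩ := Finset.mem_image.1 hp
    obtain ⟨b', hb', rfl⟩ := Finset.mem_image.1 hp'
    exact H.sep n c hc b b' fun h => hne (by rw [h])

/-- the measure of the branches -/
noncomputable def br (T : ℕ → ℕ) : Measure ((k : ℕ) → Fin (T k)) :=
  Measure.infinitePi (un T)

omit [MeasurableSpace E] [BorelSpace E] in
/-- the mass of a small set, first form -/
lemma Tr.mass (H : Tr c0 R0 A r ρ T ch) (n : ℕ) (U : Set E) (u : ℝ)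
    (hU : ∀ x ∈ U, ∀ y ∈ U, dist x y ≤ u) (hu : r (n + 1) ≤ u) (hu' : u < r n) :
    br T {ω | Phi c0 ch ω ∈ U} ≤ ENNReal.ofReal
      ((∏ k ∈ Finset.range n, (T k : ℝ)⁻¹) * ((T n : ℝ)⁻¹ * (1 + 4 * u / ρ n) ^ finrank ℝ E)) := by
  classical
  by_cases hne : ∃ ω0 : (k : ℕ) → Fin (T k), Phi c0 ch ω0 ∈ U
  swap
  · have : {ω : (k : ℕ) → Fin (T k) | Phi c0 ch ω ∈ U} = ∅ := by
      ext ω
      simp only [mem_setOf_eq, mem_empty_iff_false, iff_false]
      exact fun h => hne ⟨ω, h⟩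
    rw [this, measure_empty]
    exact zero_le
  obtain ⟨ω0, hω0⟩ := hne
  have hρ : 0 < ρ n := by
    have := H.rρ n
    have := H.rpos (n + 1)
    linarith
  have hu0 : 0 < u := lt_of_lt_of_le (H.rpos _) hu
  set t : (k : ℕ) → Set (Fin (T k)) := fun k => {b | (k < n → b = ω0 k) ∧
    (k = n → (closedBall (ch k (ctr c0 ch ω0 k) b) (r (k + 1)) ∩ U).Nonempty)} with ht
  have hsub : {ω : (k : ℕ) → Fin (T k) | Phi c0 ch ω ∈ U} ⊆
      Set.pi (Finset.range (n + 1) : Set ℕ) t := by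
    intro ω hω
    have hw : ∀ k < n, ω k = ω0 k := by
      by_contra hc
      push Not at hc
      have h1 := H.sepw (ω := ω) (ω' := ω0) (n := n) hc
      have h2 := H.memPhi ω n
      have h3 := H.memPhi ω0 n
      rw [mem_closedBall] at h2 h3
      have h4 := hU _ hω _ hω0
      have h5 := dist_triangle4 (ctr c0 ch ω n) (Phi c0 ch ω) (Phi c0 ch ω0) (ctr c0 ch ω0 n)
      rw [dist_comm] at h2
      have h6 := H.rpos n
      linarith
    intro k hk
    simp only [ht, mem_setOf_eq]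
    refine ⟨fun h => hw k h, ?_⟩
    intro h
    subst h
    have e : ctr c0 ch ω (k + 1) = ch k (ctr c0 ch ω0 k) (ω k) := by
      simp only [ctr]
      rw [ctr_congr hw]
    rw [← e]
    exact ⟨Phi c0 ch ω, H.memPhi ω (k + 1), hω⟩
  haveI : ∀ k, IsProbabilityMeasure (un T k) := fun k => un_prob H.Tpos k
  have h1 : br T (Set.pi (Finset.range (n + 1) : Set ℕ) t) =
      ∏ k ∈ Finset.range (n + 1), un T k (t k) := by
    unfold br
    exact Measure.infinitePi_pi (un T) fun k _ => MeasurableSet.of_discrete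
  refine (measure_mono hsub).trans ?_
  rw [h1, Finset.prod_range_succ]
  have hT : ∀ k, (0 : ℝ) < T k := fun k => by exact_mod_cast H.Tpos k
  have e1 : ∀ k, ((T k : ℝ≥0∞))⁻¹ = ENNReal.ofReal ((T k : ℝ)⁻¹) := by
    intro k
    rw [ENNReal.ofReal_inv_of_pos (hT k), ENNReal.ofReal_natCast]
  have h2 : ∏ k ∈ Finset.range n, un T k (t k) ≤
      ENNReal.ofReal (∏ k ∈ Finset.range n, (T k : ℝ)⁻¹) := by
    rw [ENNReal.ofReal_prod_of_nonneg fun k _ => by positivity]
    refine Finset.prod_le_prod' fun k hk => ?_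
    rw [← e1, ← un_single k (ω0 k)]
    refine measure_mono fun b hb => ?_
    exact hb.1 (Finset.mem_range.1 hk)
  have h3 : un T n (t n) ≤ ENNReal.ofReal ((T n : ℝ)⁻¹ * (1 + 4 * u / ρ n) ^ finrank ℝ E) := by
    have h4 : t n = {b : Fin (T n) |
        (closedBall (ch n (ctr c0 ch ω0 n) b) (r (n + 1)) ∩ U).Nonempty} := by
      ext b
      simp [ht]
    rw [h4, un_apply, ENNReal.ofReal_mul (by have := hT n; positivity), e1 n]
    gcongr
    rw [← ENNReal.ofReal_natCast]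
    exact ENNReal.ofReal_le_ofReal (H.kids n _ (H.inside ω0 n) U u _ hω0 hU hu)
  rw [ENNReal.ofReal_mul (Finset.prod_nonneg fun k _ => by positivity)]
  exact mul_le_mul' h2 h3

omit [MeasurableSpace E] [BorelSpace E] in
/-- the mass of a small set, second form -/
lemma Tr.mass2 (H : Tr c0 R0 A r ρ T ch) (a s κ : ℝ) (ha : 0 < a) (hs : 0 < s)
    (hsd : s < finrank ℝ E) (hκ : 0 < κ)
    (hI : ∀ n, κ ≤ r n ^ s * ∏ k ∈ Finset.range n, (T k : ℝ))
    (hT : ∀ n, a * (r n / ρ n) ^ finrank ℝ E ≤ T n) (U : Set E) (u : ℝ)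
    (hU : ∀ x ∈ U, ∀ y ∈ U, dist x y ≤ u) (hu0 : 0 < u) (hu : u < R0) :
    br T {ω | Phi c0 ch ω ∈ U} ≤ ENNReal.ofReal
      (5 ^ finrank ℝ E / κ * (1 + 1 / a) * u ^ s) := by
  classical
  have hex : ∃ m, r m ≤ u := by
    obtain ⟨m, hm⟩ := ((tendsto_order.1 H.tend).2 u hu0).exists
    exact ⟨m, hm.le⟩
  have hm0 : Nat.find hex ≠ 0 := by
    intro h
    have := Nat.find_spec hex
    rw [h, H.r0] at this
    linarith
  obtain ⟨n, hn⟩ := Nat.exists_eq_succ_of_ne_zero hm0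
  have h1 : r (n + 1) ≤ u := by
    have := Nat.find_spec hex
    rw [hn] at this
    exact this
  have h2 : u < r n := by
    have := Nat.find_min hex (m := n) (by omega)
    exact not_le.1 this
  refine (H.mass n U u hU h1 h2).trans (ENNReal.ofReal_le_ofReal ?_)
  have hTp : ∀ k, (0 : ℝ) < T k := fun k => by exact_mod_cast H.Tpos k
  have hρ : 0 < ρ n := by
    have := H.rρ n
    have := H.rpos (n + 1)
    linarith
  have hrn := H.rpos n
  have hrn1 := H.rpos (n + 1)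
  set d := finrank ℝ E
  set Q : ℝ := ∏ k ∈ Finset.range n, (T k : ℝ) with hQ
  have hQ0 : 0 < Q := Finset.prod_pos fun k _ => hTp k
  have e1 : ∏ k ∈ Finset.range n, (T k : ℝ)⁻¹ = Q⁻¹ := by rw [hQ, Finset.prod_inv_distrib]
  rw [e1]
  have hus : 0 < u ^ s := Real.rpow_pos_of_pos hu0 s
  rcases lt_or_ge u (ρ n) with hc | hc
  · have h3 : (1 + 4 * u / ρ n) ^ d ≤ 5 ^ d := by
      refine pow_le_pow_left₀ (by positivity) ?_ _
      have : 4 * u / ρ n ≤ 4 := by rw [div_le_iff₀ hρ]; linarith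
      linarith
    have h4 := hI (n + 1)
    rw [Finset.prod_range_succ, ← hQ] at h4
    have h5 : r (n + 1) ^ s ≤ u ^ s := Real.rpow_le_rpow hrn1.le h1 hs.le
    have hTn := hTp n
    have h6 : κ ≤ u ^ s * (Q * T n) := h4.trans (by gcongr)
    have h7 : Q⁻¹ * ((T n : ℝ)⁻¹ * 5 ^ d) ≤ 5 ^ d / κ * u ^ s := by
      rw [← mul_assoc, ← mul_inv, inv_mul_eq_div, div_mul_eq_mul_div, div_le_div_iff₀ (by positivity) hκ]
      have : (0 : ℝ) < 5 ^ d := by positivity
      nlinarith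
    calc Q⁻¹ * ((T n : ℝ)⁻¹ * (1 + 4 * u / ρ n) ^ d) ≤ Q⁻¹ * ((T n : ℝ)⁻¹ * 5 ^ d) := by gcongr
      _ ≤ 5 ^ d / κ * u ^ s := h7
      _ ≤ 5 ^ d / κ * (1 + 1 / a) * u ^ s := by
        have : (0 : ℝ) ≤ 5 ^ d / κ * (1 / a) * u ^ s := by positivity
        nlinarith
  · have h3 : (1 + 4 * u / ρ n) ^ d ≤ (5 * (u / ρ n)) ^ d := by
      refine pow_le_pow_left₀ (by positivity) ?_ _
      have : 1 ≤ u / ρ n := by rw [le_div_iff₀ hρ]; linarith
      have e : 4 * u / ρ n = 4 * (u / ρ n) := by ring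
      rw [e]; linarith
    have hTn := hTp n
    have h4 : (T n : ℝ)⁻¹ ≤ (a * (r n / ρ n) ^ d)⁻¹ := inv_anti₀ (by positivity) (hT n)
    have h5 := hI n
    rw [← hQ] at h5
    have h6 : Q⁻¹ ≤ r n ^ s / κ := by
      rw [inv_le_iff_one_le_mul₀ hQ0, div_mul_eq_mul_div, le_div_iff₀ hκ, one_mul]
      exact h5
    have h7 : (u / r n) ^ d ≤ (u / r n) ^ s := by
      rw [← Real.rpow_natCast]
      refine Real.rpow_le_rpow_of_exponent_ge (by positivity) ?_ hsd.le
      rw [div_le_one hrn]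
      exact h2.le
    have h8 : (u / r n) ^ s * r n ^ s = u ^ s := by
      rw [← Real.mul_rpow (by positivity) hrn.le, div_mul_cancel₀ _ hrn.ne']
    have h9 : (a * (r n / ρ n) ^ d)⁻¹ * (5 * (u / ρ n)) ^ d = 5 ^ d * (1 / a) * (u / r n) ^ d := by
      rw [mul_pow, div_pow, div_pow, div_pow]
      field_simp
    calc Q⁻¹ * ((T n : ℝ)⁻¹ * (1 + 4 * u / ρ n) ^ d)
        ≤ (r n ^ s / κ) * ((a * (r n / ρ n) ^ d)⁻¹ * (5 * (u / ρ n)) ^ d) := by gcongr
      _ = (r n ^ s / κ) * (5 ^ d * (1 / a) * (u / r n) ^ d) := by rw [h9]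
      _ ≤ (r n ^ s / κ) * (5 ^ d * (1 / a) * (u / r n) ^ s) := by gcongr
      _ = 5 ^ d / κ * (1 / a) * ((u / r n) ^ s * r n ^ s) := by ring
      _ = 5 ^ d / κ * (1 / a) * u ^ s := by rw [h8]
      _ ≤ 5 ^ d / κ * (1 + 1 / a) * u ^ s := by
        have : (0 : ℝ) ≤ 5 ^ d / κ * 1 * u ^ s := by positivity
        nlinarith

/-- the Hausdorff measure of a set containing the points of all branches -/
lemma Tr.haus (H : Tr c0 R0 A r ρ T ch) (a s κ : ℝ) (ha : 0 < a) (hs : 0 < s)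
    (hsd : s < finrank ℝ E) (hκ : 0 < κ)
    (hI : ∀ n, κ ≤ r n ^ s * ∏ k ∈ Finset.range n, (T k : ℝ))
    (hT : ∀ n, a * (r n / ρ n) ^ finrank ℝ E ≤ T n) (hR0 : 0 < R0) (S : Set E)
    (hS : ∀ ω, Phi c0 ch ω ∈ S) :
    Measure.hausdorffMeasure s S ≠ 0 := by
  set C : ℝ := 5 ^ finrank ℝ E / κ * (1 + 1 / a) with hC
  have hC0 : 0 < C := by positivity
  set ν : Measure E := (br T).map (Phi c0 ch) with hν
  have hkey : ∀ U : Set E, ediam U ≤ ENNReal.ofReal (R0 / 2) →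
      ν U ≤ ENNReal.ofReal C * ediam U ^ s := by
    intro U hU
    rcases U.eq_empty_or_nonempty with h0 | h0
    · rw [h0, measure_empty]; exact zero_le
    have hfin : ediam U ≠ ⊤ := (lt_of_le_of_lt hU ENNReal.ofReal_lt_top).ne
    have hdU : diam U ≤ R0 / 2 := by
      rw [diam]
      exact ENNReal.toReal_le_of_le_ofReal (by linarith) hU
    have hcl : ∀ x ∈ closure U, ∀ y ∈ closure U, dist x y ≤ diam U := by
      intro x hx y hy
      rw [← diam_closure U]
      refine dist_le_diam_of_mem ?_ hx hy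
      exact (isBounded_iff_ediam_ne_top.2 hfin).closure
    have h1 : ∀ u : ℝ, diam U < u → u < R0 → ν U ≤ ENNReal.ofReal (C * u ^ s) := by
      intro u hu1 hu2
      have hu0 : 0 < u := lt_of_le_of_lt diam_nonneg hu1
      refine (measure_mono subset_closure).trans ?_
      rw [hν, Measure.map_apply H.measPhi isClosed_closure.measurableSet]
      exact H.mass2 a s κ ha hs hsd hκ hI hT (closure U) u
        (fun x hx y hy => (hcl x hx y hy).trans hu1.le) hu0 hu2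
    have h2 : Tendsto (fun u : ℝ => ENNReal.ofReal (C * u ^ s)) (𝓝[>] (diam U))
        (𝓝 (ENNReal.ofReal (C * (diam U) ^ s))) := by
      refine ENNReal.tendsto_ofReal ?_
      refine Tendsto.const_mul _ ?_
      refine (Real.continuousAt_rpow_const _ _ (Or.inr hs.le)).tendsto.mono_left ?_
      exact nhdsWithin_le_nhds
    have h3 : ν U ≤ ENNReal.ofReal (C * (diam U) ^ s) := by
      refine ge_of_tendsto h2 ?_
      have h4 : Ioo (diam U) R0 ∈ 𝓝[>] (diam U) := Ioo_mem_nhdsGT (by linarith)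
      filter_upwards [h4] with u hu
      exact h1 u hu.1 hu.2
    refine h3.trans (le_of_eq ?_)
    rw [ENNReal.ofReal_mul hC0.le, ← ENNReal.ofReal_rpow_of_nonneg diam_nonneg hs.le, diam,
      ENNReal.ofReal_toReal hfin]
  have hle : (ENNReal.ofReal C)⁻¹ • ν ≤ Measure.hausdorffMeasure s := by
    refine Measure.le_hausdorffMeasure s _ (ENNReal.ofReal (R0 / 2))
      (ENNReal.ofReal_pos.2 (by linarith)) fun U hU => ?_
    rw [Measure.smul_apply, smul_eq_mul]
    calc (ENNReal.ofReal C)⁻¹ * ν U ≤ (ENNReal.ofReal C)⁻¹ * (ENNReal.ofReal C * ediam U ^ s) := by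
          gcongr
          exact hkey U hU
      _ = ediam U ^ s := by
          rw [← mul_assoc, ENNReal.inv_mul_cancel (ENNReal.ofReal_pos.2 hC0).ne' ENNReal.ofReal_ne_top,
            one_mul]
  have hone : 1 ≤ ν S := by
    have h1 := Measure.le_map_apply (μ := br T) H.measPhi.aemeasurable S
    have h2 : Phi c0 ch ⁻¹' S = univ := by
      ext ω
      simp only [mem_preimage, mem_univ, iff_true]
      exact hS ω
    rw [h2] at h1
    haveI : ∀ k, IsProbabilityMeasure (un T k) := fun k => un_prob H.Tpos k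
    have h3 : br T univ = 1 := by
      unfold br
      exact measure_univ
    rw [h3] at h1
    exact h1
  have h5 := hle S
  rw [Measure.smul_apply, smul_eq_mul] at h5
  intro h0
  rw [h0] at h5
  have h6 : (ENNReal.ofReal C)⁻¹ * ν S = 0 := le_antisymm h5 zero_le
  rcases mul_eq_zero.1 h6 with h7 | h7
  · exact ENNReal.ofReal_ne_top (ENNReal.inv_eq_zero.1 h7)
  · rw [h7] at hone
    exact absurd hone (by simp)

end mass

lemma exists_seq {α : Type} (x0 : α) (F : ℕ → α → α) :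
    ∃ f : ℕ → α, f 0 = x0 ∧ ∀ n, f (n + 1) = F n (f n) :=
  ⟨fun n => Nat.rec x0 F n, rfl, fun _ => rfl⟩

/-- the radii -/
lemma radii (d : ℕ) (R0 a : ℝ) (s : ℝ) (Good : ℕ → ℝ → ℝ → ℝ → Prop) (hR0 : 0 < R0)
    (hyp : ∀ (n : ℕ) (R M : ℝ), 0 < R → R ≤ R0 → ∃ ρ r : ℝ, 0 < r ∧ 4 * r ≤ ρ ∧ ρ ≤ R ∧
      M ≤ r ^ s * ρ ^ (-(d : ℝ)) ∧ Good n R ρ r) (Mf : ℝ → ℝ) :
    ∃ r ρ : ℕ → ℝ, r 0 = R0 ∧ (∀ n, 0 < r n) ∧ (∀ n, 4 * r (n + 1) ≤ ρ n) ∧
      (∀ n, ρ n ≤ r n) ∧ (∀ n, Mf (r n) ≤ r (n + 1) ^ s * ρ n ^ (-(d : ℝ))) ∧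
      ∀ n, Good n (r n) (ρ n) (r (n + 1)) := by
  choose ρf rf hf1 hf2 hf3 hf4 hf5 using hyp
  obtain ⟨st, h0, h1⟩ := exists_seq (α := {R : ℝ // 0 < R ∧ R ≤ R0}) ⟨R0, hR0, le_rfl⟩
    (fun m x => ⟨rf m x.1 (Mf x.1) x.2.1 x.2.2, hf1 m x.1 (Mf x.1) x.2.1 x.2.2, by
      have h1 := hf2 m x.1 (Mf x.1) x.2.1 x.2.2
      have h2 := hf3 m x.1 (Mf x.1) x.2.1 x.2.2
      have h3 := hf1 m x.1 (Mf x.1) x.2.1 x.2.2
      have h4 := x.2.2
      linarith⟩)
  refine ⟨fun n => (st n).1, fun n => ρf n (st n).1 (Mf (st n).1) (st n).2.1 (st n).2.2, ?_, ?_, ?_,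
    ?_, ?_, ?_⟩
  · simp only [h0]
  · exact fun n => (st n).2.1
  · intro n
    simp only [h1 n]
    exact hf2 _ _ _ _ _
  · intro n
    exact hf3 _ _ _ _ _
  · intro n
    simp only [h1 n]
    exact hf4 _ _ _ _ _
  · intro n
    simp only [h1 n]
    exact hf5 _ _ _ _ _

theorem cantor : Q273.MV.S_CANTOR := by
  intro E _ _ _ _ _ c0 R0 a s A hR0 ha hs hsd hyp
  classical
  have hs' : (0 : ℝ) < s := by exact_mod_cast hs
  set κ : ℝ := R0 ^ (s : ℝ) with hκ
  have hκ0 : 0 < κ := Real.rpow_pos_of_pos hR0 _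
  obtain ⟨r, ρ, hr0, hrpos, hrρ, hρr, hM, hG⟩ := radii (finrank ℝ E) R0 a s
    (fun n R ρ r => ∀ c : E, Metric.closedBall c R ⊆ Metric.closedBall c0 R0 →
        ∃ P : Finset E, a * (R / ρ) ^ (Module.finrank ℝ E) ≤ P.card ∧
          (∀ p ∈ P, Metric.closedBall p r ⊆ A n ∩ Metric.closedBall c R) ∧
          ∀ p ∈ P, ∀ p' ∈ P, p ≠ p' → ρ ≤ dist p p') hR0 hyp
    (fun R => κ / (a * R ^ (finrank ℝ E)))
  generalize hd : finrank ℝ E = d at *
  have hρpos : ∀ n, 0 < ρ n := by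
    intro n
    have h1 := hrρ n
    have h2 := hrpos (n + 1)
    linarith
  obtain ⟨T, hT⟩ : ∃ T : ℕ → ℕ, ∀ n, T n = ⌈a * (r n / ρ n) ^ d⌉₊ := ⟨_, fun _ => rfl⟩
  have hTpos : ∀ n, 0 < T n := by
    intro n
    have h1 := hrpos n
    have h2 := hρpos n
    rw [hT]
    exact Nat.ceil_pos.2 (by positivity)
  have hch : ∀ (n : ℕ) (c : E), ∃ f : Fin (T n) → E, closedBall c (r n) ⊆ closedBall c0 R0 →
      (∀ b, closedBall (f b) (r (n + 1)) ⊆ A n ∩ closedBall c (r n)) ∧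
      (∀ b b', b ≠ b' → ρ n ≤ dist (f b) (f b')) := by
    intro n c
    by_cases hc : closedBall c (r n) ⊆ closedBall c0 R0
    · obtain ⟨P, h2, h3, h4⟩ := hG n c hc
      have h5 : T n ≤ P.card := by rw [hT]; exact Nat.ceil_le.2 h2
      obtain ⟨f⟩ := Function.Embedding.nonempty_of_card_le (α := Fin (T n)) (β := P)
        (by rw [Fintype.card_fin, Fintype.card_coe]; exact h5)
      refine ⟨fun b => (f b : E), fun _ => ⟨fun b => h3 _ (f b).2, fun b b' hbb => ?_⟩⟩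
      refine h4 _ (f b).2 _ (f b').2 fun h => hbb ?_
      exact f.injective (Subtype.ext h)
    · exact ⟨fun _ => c0, fun h => absurd h hc⟩
  choose ch hch using hch
  have H : Tr c0 R0 A r ρ T ch :=
    { r0 := hr0
      rpos := hrpos
      rρ := hrρ
      ρr := hρr
      Tpos := hTpos
      sub := fun n c hc => (hch n c hc).1
      sep := fun n c hc => (hch n c hc).2 }
  have hTn : ∀ n, a * (r n / ρ n) ^ d ≤ T n := fun n => by rw [hT]; exact Nat.le_ceil _
  have hI : ∀ n, κ ≤ r n ^ (s : ℝ) * ∏ k ∈ Finset.range n, (T k : ℝ) := by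
    intro n
    cases n with
    | zero => simp [hκ, hr0]
    | succ n =>
      rw [Finset.prod_range_succ]
      have hQ : (1 : ℝ) ≤ ∏ k ∈ Finset.range n, (T k : ℝ) := by
        have : (1 : ℝ) = ∏ k ∈ Finset.range n, (1 : ℝ) := by simp
        rw [this]
        exact Finset.prod_le_prod (fun _ _ => zero_le_one) fun k _ => by exact_mod_cast hTpos k
      have h1 := hM n
      have h2 := hTn n
      have hrn := hrpos n
      have hρn := hρpos n
      have hrn1 := hrpos (n + 1)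
      have h3 : 0 < r (n + 1) ^ (s : ℝ) := Real.rpow_pos_of_pos hrn1 _
      rw [Real.rpow_neg hρn.le, Real.rpow_natCast] at h1
      calc κ = κ / (a * r n ^ d) * (a * r n ^ d) := by
            field_simp
        _ ≤ (r (n + 1) ^ (s : ℝ) * (ρ n ^ d)⁻¹) * (a * r n ^ d) := by gcongr
        _ = r (n + 1) ^ (s : ℝ) * (1 * (a * (r n / ρ n) ^ d)) := by
            rw [div_pow]; ring
        _ ≤ r (n + 1) ^ (s : ℝ) * ((∏ k ∈ Finset.range n, (T k : ℝ)) * (T n : ℝ)) := by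
            gcongr
  subst hd
  refine H.haus a s κ ha hs' hsd hκ0 hI hTn hR0 _ fun ω => ⟨?_, ?_⟩
  · have := H.memPhi ω 0
    rw [hr0] at this
    exact this
  · refine mem_iInter.2 fun n => ?_
    exact (H.next ω n (H.memPhi ω (n + 1))).1

end Pool.Agent.Q198.MV
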