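import Pool.Agent.Q273.MV.Stm3

/-! Project MV (helper273), job DENS: Lebesgue density, in shells around almost every point. -/

set_option autoImplicit false

open MeasureTheory NumberField NumberField.mixedEmbedding Metric Filter Topology Set
open scoped NNReal ENNReal

namespace Pool.Agent.Q198.MV

open scoped Classical in
lemma nap_le (K : Type) [Field K] [NumberField K] (w : InfinitePlace K) (x : mixedSpace K) :
    normAtPlace w x ≤ ‖x‖ := by
  rw [norm_eq_sup'_normAtPlace]
  exact Finset.le_sup' (fun w => normAtPlace w x) (Finset.mem_univ w)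

lemma nap_one (K : Type) [Field K] [NumberField K] (w : InfinitePlace K) :
    normAtPlace w (mixedEmbedding K 1) = 1 := by
  rw [normAtPlace_apply, map_one]

open scoped Classical in
lemma norm_one' (K : Type) [Field K] [NumberField K] : ‖mixedEmbedding K 1‖ ≤ 1 := by
  rw [norm_eq_sup'_normAtPlace]
  exact Finset.sup'_le _ _ fun w _ => (nap_one K w).le

open scoped Classical in
lemma shell (K : Type) [Field K] [NumberField K] (ξ ξ' : mixedSpace K) (r : ℝ) (hr : 0 < r)
    (h : dist ξ' (ξ + (3 * r / 4) • mixedEmbedding K 1) ≤ r / 4) (w : InfinitePlace K) :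
    r / 2 ≤ normAtPlace w (ξ' - ξ) ∧ normAtPlace w (ξ' - ξ) ≤ r := by
  rw [dist_eq_norm] at h
  set v := ξ' - (ξ + (3 * r / 4) • mixedEmbedding K 1) with hv
  set e := (3 * r / 4) • mixedEmbedding K 1 with he
  have h1 : normAtPlace w v ≤ r / 4 := (nap_le K w v).trans h
  have h2 : normAtPlace w e = 3 * r / 4 := by
    rw [he, normAtPlace_smul, nap_one, mul_one, abs_of_pos (by positivity)]
  have e1 : ξ' - ξ = v + e := by rw [hv]; abel
  have e2 : e = (ξ' - ξ) + -v := by rw [e1]; abel
  have h3 := normAtPlace_add_le w v e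
  have h4 := normAtPlace_add_le w (ξ' - ξ) (-v)
  rw [normAtPlace_neg, ← e2] at h4
  rw [← e1] at h3
  constructor <;> linarith

open scoped Classical in
theorem dens : Q273.MV.S_DENS := by
  intro K _ _ F hF
  have h1 : ∀ m : ℕ, ∀ᵐ ξ : mixedSpace K, ξ ∈ F m → ∃ r0 : ℝ, 0 < r0 ∧ ∀ r : ℝ, 0 < r → r ≤ r0 →
      ∃ ξ' ∈ F m, ∀ w : InfinitePlace K,
        r / 2 ≤ normAtPlace w (ξ' - ξ) ∧ normAtPlace w (ξ' - ξ) ≤ r := by
    intro m
    have h2 := IsUnifLocDoublingMeasure.ae_tendsto_measure_inter_div
      (volume : Measure (mixedSpace K)) (F m) 3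
    have h3 := ae_imp_of_ae_restrict h2
    filter_upwards [h3] with ξ hξ hm
    have h4 := hξ hm (l := 𝓝[>] (0 : ℝ)) (fun r : ℝ => ξ + (3 * r / 4) • mixedEmbedding K 1)
      (fun r => r / 4) ?_ ?_
    · have h5 := h4.eventually (lt_mem_nhds (zero_lt_one))
      rw [eventually_nhdsWithin_iff, Metric.eventually_nhds_iff] at h5
      obtain ⟨ε, hε, h6⟩ := h5
      refine ⟨ε / 2, by positivity, fun r hr hrε => ?_⟩
      have h7 := h6 (y := r) (by rw [Real.dist_eq, sub_zero, abs_of_pos hr]; linarith) hr
      have h8 : (F m ∩ closedBall (ξ + (3 * r / 4) • mixedEmbedding K 1) (r / 4)).Nonempty := by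
        by_contra hc
        rw [Set.not_nonempty_iff_eq_empty] at hc
        simp only [hc, measure_empty, ENNReal.zero_div, lt_self_iff_false] at h7
      obtain ⟨ξ', hξ1, hξ2⟩ := h8
      exact ⟨ξ', hξ1, fun w => shell K ξ ξ' r hr (mem_closedBall.1 hξ2) w⟩
    · rw [tendsto_nhdsWithin_iff]
      constructor
      · have : Tendsto (fun r : ℝ => r / 4) (𝓝 0) (𝓝 (0 / 4)) :=
          (continuous_id.div_const 4).tendsto 0
        rw [zero_div] at this
        exact this.mono_left nhdsWithin_le_nhds
      · filter_upwards [self_mem_nhdsWithin] with r hr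
        have hr' : (0 : ℝ) < r := hr
        have : (0 : ℝ) < r / 4 := by positivity
        exact this
    · filter_upwards [self_mem_nhdsWithin] with r hr
      have hr' : (0 : ℝ) < r := hr
      rw [mem_closedBall, dist_eq_norm]
      have e : ξ - (ξ + (3 * r / 4) • mixedEmbedding K 1) = -((3 * r / 4) • mixedEmbedding K 1) := by
        abel
      rw [e, norm_neg, _root_.norm_smul, Real.norm_of_nonneg (by positivity)]
      have := norm_one' K
      nlinarith
  rw [← ae_all_iff] at h1
  filter_upwards [hF, h1] with ξ hξ h2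
  obtain ⟨m, hm⟩ := hξ
  exact ⟨m, hm, h2 m hm⟩

end Pool.Agent.Q198.MV
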